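import Mathlib

/-! # Combinatorial part of the Edwards-Sokal exit inequality (helper983) -/

namespace Pool.Agent.H983R2.FK

open Finset

/-- Adjacency given by a finite set of ordered pairs. -/
def adj {V : Type*} (ω : Finset (V × V)) (u v : V) : Prop := (u, v) ∈ ω ∨ (v, u) ∈ ω

/-- Connection by a set of edges. -/
def conn {V : Type*} (ω : Finset (V × V)) : V → V → Prop := Relation.ReflTransGen (adj ω)

theorem adj_symm {V : Type*} {ω : Finset (V × V)} {u v : V} (h : adj ω u v) : adj ω v u :=
  Or.symm h

theorem conn_symm {V : Type*} {ω : Finset (V × V)} {u v : V} (h : conn ω u v) : conn ω v u := by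
  induction h using Relation.ReflTransGen.head_induction_on with
  | refl => exact Relation.ReflTransGen.refl
  | head h1 _ ih => exact Relation.ReflTransGen.tail ih (adj_symm h1)

theorem adj_mono {V : Type*} {ω ω' : Finset (V × V)} (h : ω ⊆ ω') {u v : V} (huv : adj ω u v) :
    adj ω' u v := huv.imp (fun x => h x) (fun x => h x)

theorem conn_mono {V : Type*} {ω ω' : Finset (V × V)} (h : ω ⊆ ω') {u v : V}
    (huv : conn ω u v) : conn ω' u v := by
  induction huv with
  | refl => exact Relation.ReflTransGen.refl
  | tail _ h1 ih => exact Relation.ReflTransGen.tail ih (adj_mono h h1)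

/-- Edges with both end points outside `B`. -/
def outer {V : Type*} [Fintype V] [DecidableEq V] (B : Finset V) : Finset (V × V) :=
  Finset.univ.filter fun e => e.1 ∉ B ∧ e.2 ∉ B

/-- Last exit decomposition. -/
theorem last_exit {V : Type*} [Fintype V] [DecidableEq V] (B : Finset V) (ω : Finset (V × V))
    {o x : V} (ho : o ∈ B) (hx : x ∉ B) (h : conn ω o x) :
    ∃ w ∈ B, ∃ w', w' ∉ B ∧ adj ω w w' ∧ conn ω o w ∧ conn (ω ∩ outer B) w' x := by
  have key : ∀ v, conn ω v x → (v ∉ B ∧ conn (ω ∩ outer B) v x) ∨
      ∃ w ∈ B, ∃ w', w' ∉ B ∧ adj ω w w' ∧ conn ω v w ∧ conn (ω ∩ outer B) w' x := by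
    intro v hv
    induction hv using Relation.ReflTransGen.head_induction_on with
    | refl => exact Or.inl ⟨hx, Relation.ReflTransGen.refl⟩
    | @head v v' hvv' hv'x ih =>
      by_cases hvB : v ∈ B
      · right
        rcases ih with ⟨h1, h2⟩ | ⟨w, hw, w', hw', h3, h4, h5⟩
        · exact ⟨v, hvB, v', h1, hvv', Relation.ReflTransGen.refl, h2⟩
        · exact ⟨w, hw, w', hw', h3, Relation.ReflTransGen.head hvv' h4, h5⟩
      · rcases ih with ⟨h1, h2⟩ | ⟨w, hw, w', hw', h3, h4, h5⟩
        · left
          refine ⟨hvB, Relation.ReflTransGen.head ?_ h2⟩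
          rcases hvv' with h | h
          · left
            simp only [Finset.mem_inter, outer, Finset.mem_filter, Finset.mem_univ, true_and]
            exact ⟨h, hvB, h1⟩
          · right
            simp only [Finset.mem_inter, outer, Finset.mem_filter, Finset.mem_univ, true_and]
            exact ⟨h, h1, hvB⟩
        · right
          exact ⟨w, hw, w', hw', h3, Relation.ReflTransGen.head hvv' h4, h5⟩
  rcases key o h with ⟨h1, _⟩ | h2
  · exact absurd ho h1
  · exact h2

/-- Factorisation of a Bernoulli product measure on subsets: `D` open and a condition on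
`ω ∩ E'`, `D` disjoint from `E'`. -/
theorem bern_factor {E : Type*} [Fintype E] [DecidableEq E] (p : E → ℝ) (E' D : Finset E)
    (hd : Disjoint D E') (C : Finset E → Prop) [DecidablePred C] :
    ∑ ω : Finset E, (if D ⊆ ω ∧ C (ω ∩ E') then (∏ e ∈ ω, p e) * ∏ e ∈ ωᶜ, (1 - p e) else 0)
      = (∏ e ∈ D, p e) *
        ∑ ω' ∈ E'.powerset, (if C ω' then (∏ e ∈ ω', p e) * ∏ e ∈ E' \ ω', (1 - p e) else 0) := by
  classical
  have h1 : ∑ ω : Finset E,
      (if D ⊆ ω ∧ C (ω ∩ E') then (∏ e ∈ ω, p e) * ∏ e ∈ ωᶜ, (1 - p e) else 0)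
      = ∑ ω' ∈ E'.powerset, ∑ ω ∈ Finset.univ.filter (fun ω : Finset E => ω ∩ E' = ω'),
        (if D ⊆ ω ∧ C (ω ∩ E') then (∏ e ∈ ω, p e) * ∏ e ∈ ωᶜ, (1 - p e) else 0) := by
    rw [Finset.sum_fiberwise_of_maps_to]
    intro ω _
    exact Finset.mem_powerset.2 Finset.inter_subset_right
  rw [h1, Finset.mul_sum]
  refine Finset.sum_congr rfl fun ω' hω' => ?_
  rw [Finset.mem_powerset] at hω'
  by_cases hC : C ω'
  · rw [if_pos hC]
    set xf : E → ℝ := fun e => if e ∈ E' \ ω' then 0 else p e with hxf
    set yf : E → ℝ := fun e => if e ∈ ω' ∪ D then 0 else 1 - p e with hyf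
    have h2 : ∏ e : E, (xf e + yf e) = ∑ ω : Finset E, (∏ e ∈ ω, xf e) * ∏ e ∈ ωᶜ, yf e := by
      rw [Finset.prod_add]
      rw [Finset.powerset_univ]
      refine Finset.sum_congr rfl fun ω _ => ?_
      rw [Finset.compl_eq_univ_sdiff]
    have h3 : ∑ ω ∈ Finset.univ.filter (fun ω : Finset E => ω ∩ E' = ω'),
        (if D ⊆ ω ∧ C (ω ∩ E') then (∏ e ∈ ω, p e) * ∏ e ∈ ωᶜ, (1 - p e) else 0)
        = ∑ ω : Finset E, (∏ e ∈ ω, xf e) * ∏ e ∈ ωᶜ, yf e := by
      rw [Finset.sum_filter]
      refine Finset.sum_congr rfl fun ω _ => ?_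
      by_cases hω : ω ∩ E' = ω' ∧ D ⊆ ω
      · rw [if_pos hω.1, if_pos ⟨hω.2, by rw [hω.1]; exact hC⟩]
        congr 1
        · refine Finset.prod_congr rfl fun e he => ?_
          have : e ∉ E' \ ω' := by
            intro h
            rw [Finset.mem_sdiff] at h
            apply h.2
            rw [← hω.1]
            exact Finset.mem_inter.2 ⟨he, h.1⟩
          simp only [hxf, if_neg this]
        · refine Finset.prod_congr rfl fun e he => ?_
          have : e ∉ ω' ∪ D := by
            intro h
            rw [Finset.mem_compl] at he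
            rw [Finset.mem_union] at h
            rcases h with h | h
            · rw [← hω.1] at h
              exact he (Finset.mem_inter.1 h).1
            · exact he (hω.2 h)
          simp only [hyf, if_neg this]
      · have hz : (∏ e ∈ ω, xf e) * ∏ e ∈ ωᶜ, yf e = 0 := by
          by_cases hDω : D ⊆ ω
          · have hne : ω ∩ E' ≠ ω' := fun h => hω ⟨h, hDω⟩
            by_cases hsub : ω' ⊆ ω
            · -- some element of ω ∩ E' not in ω'
              have : ∃ e ∈ ω, e ∈ E' \ ω' := by
                by_contra hcon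
                push Not at hcon
                apply hne
                apply Finset.Subset.antisymm
                · intro e he
                  rw [Finset.mem_inter] at he
                  by_contra hh
                  exact hcon e he.1 (Finset.mem_sdiff.2 ⟨he.2, hh⟩)
                · intro e he
                  exact Finset.mem_inter.2 ⟨hsub he, hω' he⟩
              obtain ⟨e, he1, he2⟩ := this
              rw [Finset.prod_eq_zero he1 (by simp only [hxf, if_pos he2]), zero_mul]
            · obtain ⟨e, he1, he2⟩ := Finset.not_subset.1 hsub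
              rw [Finset.prod_eq_zero (Finset.mem_compl.2 he2)
                (by simp only [hyf, if_pos (Finset.mem_union_left D he1)]), mul_zero]
          · obtain ⟨e, he1, he2⟩ := Finset.not_subset.1 hDω
            rw [Finset.prod_eq_zero (Finset.mem_compl.2 he2)
              (by simp only [hyf, if_pos (Finset.mem_union_right ω' he1)]), mul_zero]
        rw [hz]
        by_cases h1 : ω ∩ E' = ω'
        · have h2 : ¬ D ⊆ ω := fun h => hω ⟨h1, h⟩
          rw [if_pos h1, if_neg (fun h => h2 h.1)]
        · rw [if_neg h1]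
    rw [h3, ← h2]
    -- evaluate the product
    have h4 : ∏ e : E, (xf e + yf e) = ∏ e : E, ((if e ∈ D then p e else 1) *
        ((if e ∈ ω' then p e else 1) * (if e ∈ E' \ ω' then 1 - p e else 1))) := by
      refine Finset.prod_congr rfl fun e _ => ?_
      simp only [hxf, hyf, Finset.mem_union, Finset.mem_sdiff]
      by_cases hD : e ∈ D
      · have hE : e ∉ E' := Finset.disjoint_left.1 hd hD
        have hw : e ∉ ω' := fun h => hE (hω' h)
        simp [hD, hE, hw]
      · by_cases hw : e ∈ ω'
        · simp [hD, hw]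
        · by_cases hE : e ∈ E'
          · simp [hD, hw, hE]
          · simp [hD, hw, hE]
    rw [h4, Finset.prod_mul_distrib, Finset.prod_mul_distrib]
    congr 1
    · rw [Finset.prod_ite_mem, Finset.univ_inter]
    · congr 1
      · rw [Finset.prod_ite_mem, Finset.univ_inter]
      · rw [Finset.prod_ite_mem, Finset.univ_inter]
  · rw [if_neg hC, mul_zero]
    refine Finset.sum_eq_zero fun ω hω => ?_
    rw [Finset.mem_filter] at hω
    rw [if_neg]
    rintro ⟨_, h⟩
    rw [hω.2] at h
    exact hC h

/-- total mass one. -/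
theorem bern_total {E : Type*} [Fintype E] [DecidableEq E] (p : E → ℝ) :
    ∑ ω : Finset E, ((∏ e ∈ ω, p e) * ∏ e ∈ ωᶜ, (1 - p e)) = 1 := by
  have := Finset.prod_add (fun e => p e) (fun e => 1 - p e) (Finset.univ : Finset E)
  rw [Finset.powerset_univ] at this
  simp only [add_sub_cancel, Finset.prod_const_one] at this
  refine Eq.trans ?_ this.symm
  refine Finset.sum_congr rfl fun ω _ => ?_
  rw [Finset.compl_eq_univ_sdiff]

end Pool.Agent.H983R2.FK
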