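import Mathlib
import Pool.Agent.H983R2.FK.Comb

/-! # The Edwards-Sokal exit inequality for general ferromagnetic couplings (helper983)

Spins `s v : Ω` with a priori probability `ν`, an odd bounded observable `a` (the first
component), weight `g s * exp (∑ k_e a_u a_v)` with `g` invariant under flips of any set of
spins. -/

set_option autoImplicit false
set_option linter.unusedSectionVars false
set_option linter.style.haveILetI false
set_option linter.unusedVariables false

namespace Pool.Agent.H983R2.FK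

open Finset MeasureTheory

/-- The data of a ferromagnetic system in one component of the spins. -/
structure Sys (V Ω : Type*) [Fintype V] [DecidableEq V] [MeasurableSpace Ω] where
  /-- a priori measure -/
  ν : Measure Ω
  prob : IsProbabilityMeasure ν
  /-- flip -/
  τ : Ω → Ω
  mp : MeasurePreserving τ ν ν
  /-- the component -/
  a : Ω → ℝ
  ma : Measurable a
  a1 : ∀ z, |a z| ≤ 1
  odd : ∀ z, a (τ z) = -a z
  /-- couplings (ordered pairs) -/
  k : V × V → ℝ
  k0 : ∀ e, 0 ≤ k e
  /-- flip invariant factor -/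
  g : (V → Ω) → ℝ
  mg : Measurable g
  g0 : ∀ s, 0 ≤ g s
  gb : ∃ C, ∀ s, g s ≤ C
  gflip : ∀ (C : Finset V) (s : V → Ω), g (fun v => if v ∈ C then τ (s v) else s v) = g s

variable {V Ω : Type*} [Fintype V] [DecidableEq V] [MeasurableSpace Ω] (D : Sys V Ω)

namespace Sys

/-- the product of the components over an edge -/
noncomputable def x (e : V × V) (s : V → Ω) : ℝ := D.a (s e.1) * D.a (s e.2)

/-- the weight -/
noncomputable def wt (s : V → Ω) : ℝ := D.g s * Real.exp (∑ e, D.k e * D.x e s)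

/-- a priori product measure -/
noncomputable def π : Measure (V → Ω) := Measure.pi fun _ => D.ν

/-- unnormalised expectation -/
noncomputable def I (F : (V → Ω) → ℝ) : ℝ := ∫ s, F s * D.wt s ∂D.π

/-- closed edge factor -/
noncomputable def q (e : V × V) (s : V → Ω) : ℝ := Real.exp (-(D.k e * |D.x e s|))

/-- open edge factor -/
noncomputable def r (e : V × V) (s : V → Ω) : ℝ :=
  if 0 < D.x e s then Real.exp (D.k e * D.x e s) - Real.exp (-(D.k e * D.x e s)) else 0

/-- conditional probability that the edge is open -/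
noncomputable def p (e : V × V) (s : V → Ω) : ℝ :=
  if 0 < D.x e s then 1 - Real.exp (-(2 * D.k e * D.x e s)) else 0

/-- conditional probability of an edge configuration -/
noncomputable def P (ω : Finset (V × V)) (s : V → Ω) : ℝ :=
  (∏ e ∈ ω, D.p e s) * ∏ e ∈ ωᶜ, (1 - D.p e s)

/-- joint weight -/
noncomputable def W (ω : Finset (V × V)) (s : V → Ω) : ℝ :=
  D.g s * ((∏ e ∈ ω, D.r e s) * ∏ e ∈ ωᶜ, D.q e s)

/-- flipping a set of spins -/
def flip (C : Finset V) (s : V → Ω) : V → Ω := fun v => if v ∈ C then D.τ (s v) else s v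

theorem exp_mul_p (e : V × V) (s : V → Ω) :
    Real.exp (D.k e * D.x e s) * D.p e s = D.r e s := by
  unfold p r
  split_ifs with h
  · rw [mul_sub, mul_one, ← Real.exp_add]
    congr 2
    ring
  · ring

theorem exp_mul_q (e : V × V) (s : V → Ω) :
    Real.exp (D.k e * D.x e s) * (1 - D.p e s) = D.q e s := by
  unfold p q
  split_ifs with h
  · rw [abs_of_pos h, sub_sub_cancel, ← Real.exp_add]
    congr 1
    ring
  · rw [abs_of_nonpos (not_lt.1 h), sub_zero, mul_one]
    congr 1
    ring

theorem W_eq (ω : Finset (V × V)) (s : V → Ω) : D.W ω s = D.wt s * D.P ω s := by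
  unfold W wt P
  rw [Real.exp_sum, mul_assoc]
  congr 1
  have : ∏ e, Real.exp (D.k e * D.x e s)
      = (∏ e ∈ ω, Real.exp (D.k e * D.x e s)) * ∏ e ∈ ωᶜ, Real.exp (D.k e * D.x e s) := by
    rw [Finset.prod_mul_prod_compl]
  rw [this]
  rw [mul_mul_mul_comm, ← Finset.prod_mul_distrib, ← Finset.prod_mul_distrib]
  congr 1
  · exact Finset.prod_congr rfl fun e _ => (D.exp_mul_p e s).symm
  · exact Finset.prod_congr rfl fun e _ => (D.exp_mul_q e s).symm

theorem p_nonneg (e : V × V) (s : V → Ω) : 0 ≤ D.p e s := by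
  unfold p
  split_ifs with h
  · have : Real.exp (-(2 * D.k e * D.x e s)) ≤ 1 := by
      apply Real.exp_le_one_iff.2
      have := mul_nonneg (D.k0 e) h.le
      nlinarith
    linarith
  · exact le_rfl

theorem p_le_one (e : V × V) (s : V → Ω) : D.p e s ≤ 1 := by
  unfold p
  split_ifs with h
  · have := Real.exp_pos (-(2 * D.k e * D.x e s))
    linarith
  · exact zero_le_one

theorem P_nonneg (ω : Finset (V × V)) (s : V → Ω) : 0 ≤ D.P ω s := by
  unfold P
  refine mul_nonneg (Finset.prod_nonneg fun e _ => D.p_nonneg e s)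
    (Finset.prod_nonneg fun e _ => sub_nonneg.2 (D.p_le_one e s))

theorem wt_nonneg (s : V → Ω) : 0 ≤ D.wt s := mul_nonneg (D.g0 s) (Real.exp_pos _).le

theorem W_nonneg (ω : Finset (V × V)) (s : V → Ω) : 0 ≤ D.W ω s := by
  rw [W_eq]; exact mul_nonneg (D.wt_nonneg s) (D.P_nonneg ω s)

theorem P_sum (s : V → Ω) : ∑ ω, D.P ω s = 1 := bern_total fun e => D.p e s

theorem P_le_one (ω : Finset (V × V)) (s : V → Ω) : D.P ω s ≤ 1 := by
  rw [← D.P_sum s]
  exact Finset.single_le_sum (fun ω _ => D.P_nonneg ω s) (Finset.mem_univ ω)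

theorem W_sum (s : V → Ω) : ∑ ω, D.W ω s = D.wt s := by
  simp only [W_eq]
  rw [← Finset.mul_sum, P_sum, mul_one]

/-- positivity of the open edges when the joint weight is nonzero -/
theorem x_pos_of_W {ω : Finset (V × V)} {s : V → Ω} (h : D.W ω s ≠ 0) {e : V × V}
    (he : e ∈ ω) : 0 < D.x e s := by
  by_contra hx
  apply h
  unfold W
  rw [Finset.prod_eq_zero he (by unfold r; rw [if_neg hx]), zero_mul, mul_zero]

theorem conn_sign {ω : Finset (V × V)} {s : V → Ω} (h : ∀ e ∈ ω, 0 < D.x e s) {u v : V}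
    (huv : conn ω u v) : u = v ∨ 0 < D.a (s u) * D.a (s v) := by
  induction huv with
  | refl => exact Or.inl rfl
  | @tail b c _ hbc ih =>
    right
    have h1 : 0 < D.a (s b) * D.a (s c) := by
      rcases hbc with hh | hh
      · exact h _ hh
      · have := h _ hh
        unfold x at this
        rw [mul_comm]
        exact this
    rcases ih with rfl | ih
    · exact h1
    · rcases pos_and_pos_or_neg_and_neg_of_mul_pos h1 with ⟨hb, hc⟩ | ⟨hb, hc⟩
      · exact mul_pos ((pos_iff_pos_of_mul_pos ih).2 hb) hc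
      · exact mul_pos_of_neg_of_neg ((neg_iff_neg_of_mul_pos ih).2 hb) hc

theorem abs_flip (C : Finset V) (s : V → Ω) (v : V) : |D.a (D.flip C s v)| = |D.a (s v)| := by
  unfold flip
  split_ifs
  · rw [D.odd, abs_neg]
  · rfl

theorem absx_flip (C : Finset V) (s : V → Ω) (e : V × V) :
    |D.x e (D.flip C s)| = |D.x e s| := by
  unfold x
  rw [abs_mul, abs_mul, abs_flip, abs_flip]

theorem x_flip {C : Finset V} {s : V → Ω} {e : V × V} (h : e.1 ∈ C ↔ e.2 ∈ C) :
    D.x e (D.flip C s) = D.x e s := by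
  unfold x flip
  by_cases h1 : e.1 ∈ C
  · rw [if_pos h1, if_pos (h.1 h1), D.odd, D.odd]; ring
  · rw [if_neg h1, if_neg (fun h2 => h1 (h.2 h2))]

theorem W_flip {C : Finset V} {ω : Finset (V × V)} (h : ∀ e ∈ ω, (e.1 ∈ C ↔ e.2 ∈ C))
    (s : V → Ω) : D.W ω (D.flip C s) = D.W ω s := by
  unfold W
  have hg : D.g (D.flip C s) = D.g s := D.gflip C s
  rw [hg]
  congr 2
  · refine Finset.prod_congr rfl fun e he => ?_
    unfold r
    rw [D.x_flip (h e he)]
  · refine Finset.prod_congr rfl fun e _ => ?_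
    unfold q
    rw [D.absx_flip]

/-! ## measurability and integrability -/

/-- bounded measurable -/
def BM (F : (V → Ω) → ℝ) : Prop := Measurable F ∧ ∃ C, ∀ s, |F s| ≤ C

theorem BM.mul {F G : (V → Ω) → ℝ} (hF : BM F) (hG : BM G) : BM fun s => F s * G s := by
  obtain ⟨h1, C, hC⟩ := hF
  obtain ⟨h2, C', hC'⟩ := hG
  refine ⟨h1.mul h2, C * C', fun s => ?_⟩
  rw [abs_mul]
  exact mul_le_mul (hC s) (hC' s) (abs_nonneg _) ((abs_nonneg _).trans (hC s))

theorem BM.sum {ι : Type*} (T : Finset ι) {F : ι → (V → Ω) → ℝ} (hF : ∀ i ∈ T, BM (F i)) :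
    BM fun s => ∑ i ∈ T, F i s := by
  classical
  induction T using Finset.induction_on with
  | empty => exact ⟨by simpa using measurable_const, 0, fun s => by simp⟩
  | insert i T hi ih =>
    obtain ⟨h1, C, hC⟩ := hF i (Finset.mem_insert_self i T)
    obtain ⟨h2, C', hC'⟩ := ih fun j hj => hF j (Finset.mem_insert_of_mem hj)
    simp only [Finset.sum_insert hi]
    exact ⟨h1.add h2, C + C', fun s => (abs_add_le _ _).trans (add_le_add (hC s) (hC' s))⟩

theorem BM.prod {ι : Type*} (T : Finset ι) {F : ι → (V → Ω) → ℝ} (hF : ∀ i ∈ T, BM (F i)) :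
    BM fun s => ∏ i ∈ T, F i s := by
  classical
  induction T using Finset.induction_on with
  | empty => exact ⟨by simpa using measurable_const, 1, fun s => by simp⟩
  | insert i T hi ih =>
    have h1 := hF i (Finset.mem_insert_self i T)
    have h2 := ih fun j hj => hF j (Finset.mem_insert_of_mem hj)
    simp only [Finset.prod_insert hi]
    exact h1.mul h2

theorem BM.ite_const {F : (V → Ω) → ℝ} (c : Prop) [Decidable c] (hF : BM F) :
    BM fun s => if c then F s else 0 := by
  by_cases h : c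
  · simpa only [if_pos h] using hF
  · simp only [if_neg h]
    exact ⟨measurable_const, 0, fun s => by simp⟩

theorem BM.integrable {F : (V → Ω) → ℝ} (hF : BM F) : Integrable F D.π := by
  haveI := D.prob
  haveI : IsProbabilityMeasure D.π := by unfold π; infer_instance
  obtain ⟨h1, C, hC⟩ := hF
  exact Integrable.of_bound h1.aestronglyMeasurable C (ae_of_all _ fun s => by
    rw [Real.norm_eq_abs]; exact hC s)

theorem BM_a (v : V) : BM fun s : V → Ω => D.a (s v) :=
  ⟨D.ma.comp (measurable_pi_apply v), 1, fun s => D.a1 _⟩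

theorem BM_absa (v : V) : BM fun s : V → Ω => |D.a (s v)| :=
  ⟨(D.ma.comp (measurable_pi_apply v)).abs, 1, fun s => by rw [abs_abs]; exact D.a1 _⟩

theorem meas_x (e : V × V) : Measurable (D.x e) :=
  (D.ma.comp (measurable_pi_apply e.1)).mul (D.ma.comp (measurable_pi_apply e.2))

theorem absx_le (e : V × V) (s : V → Ω) : |D.x e s| ≤ 1 := by
  unfold x
  rw [abs_mul]
  exact mul_le_one₀ (D.a1 _) (abs_nonneg _) (D.a1 _)

theorem BM_p (e : V × V) : BM (D.p e) := by
  refine ⟨?_, 1, fun s => ?_⟩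
  · unfold p
    refine Measurable.ite (measurableSet_lt measurable_const (D.meas_x e)) ?_ measurable_const
    exact measurable_const.sub ((D.meas_x e).const_mul _).neg.exp
  · rw [abs_of_nonneg (D.p_nonneg e s)]; exact D.p_le_one e s

theorem BM_onesubp (e : V × V) : BM fun s => 1 - D.p e s := by
  refine ⟨measurable_const.sub (D.BM_p e).1, 1, fun s => ?_⟩
  rw [abs_of_nonneg (sub_nonneg.2 (D.p_le_one e s))]
  linarith [D.p_nonneg e s]

theorem BM_P (ω : Finset (V × V)) : BM (D.P ω) :=
  (BM.prod _ fun e _ => D.BM_p e).mul (BM.prod _ fun e _ => D.BM_onesubp e)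

theorem BM_wt : BM D.wt := by
  obtain ⟨C, hC⟩ := D.gb
  refine ⟨?_, C * Real.exp (∑ e, D.k e), fun s => ?_⟩
  · unfold wt
    refine D.mg.mul (Measurable.exp ?_)
    exact Finset.measurable_sum _ fun e _ => (D.meas_x e).const_mul _
  · rw [abs_of_nonneg (D.wt_nonneg s)]
    unfold wt
    refine mul_le_mul (hC s) ?_ (Real.exp_pos _).le ((D.g0 s).trans (hC s))
    refine Real.exp_le_exp.2 (Finset.sum_le_sum fun e _ => ?_)
    have := (abs_le.1 (D.absx_le e s)).2
    have := D.k0 e
    nlinarith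

theorem BM_W (ω : Finset (V × V)) : BM (D.W ω) := by
  have : D.W ω = fun s => D.wt s * D.P ω s := funext fun s => D.W_eq ω s
  rw [this]
  exact D.BM_wt.mul (D.BM_P ω)

/-- cluster of `o` as a finset -/
noncomputable def clu (ω : Finset (V × V)) (o : V) : Finset V := by
  classical exact Finset.univ.filter fun v => conn ω o v

omit [MeasurableSpace Ω] in
theorem mem_clu {ω : Finset (V × V)} {o v : V} : v ∈ clu ω o ↔ conn ω o v := by
  classical
  unfold clu
  simp

omit [MeasurableSpace Ω] in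
theorem clu_edge {ω : Finset (V × V)} {o : V} (e : V × V) (he : e ∈ ω) :
    e.1 ∈ clu ω o ↔ e.2 ∈ clu ω o := by
  rw [mem_clu, mem_clu]
  constructor
  · intro h
    exact Relation.ReflTransGen.tail h (Or.inl he)
  · intro h
    exact Relation.ReflTransGen.tail h (Or.inr he)

theorem flip_mp (C : Finset V) : MeasurePreserving (D.flip C) D.π D.π := by
  haveI := D.prob
  unfold π flip
  have := measurePreserving_pi (fun _ : V => D.ν) (fun _ : V => D.ν)
    (f := fun v => if v ∈ C then D.τ else id) (by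
      intro v
      by_cases h : v ∈ C
      · simp only [if_pos h]; exact D.mp
      · simp only [if_neg h]; exact MeasurePreserving.id _)
  convert this using 1
  funext s v
  by_cases h : v ∈ C <;> simp [h]

/-- integrals of functions which are odd under the flip of a union of clusters vanish -/
theorem int_odd {ω : Finset (V × V)} {C : Finset V} (h : ∀ e ∈ ω, (e.1 ∈ C ↔ e.2 ∈ C))
    {F : (V → Ω) → ℝ} (hF : BM F) (hodd : ∀ s, F (D.flip C s) = -F s) :
    ∫ s, F s * D.W ω s ∂D.π = 0 := by
  have h1 := (D.flip_mp C).map_eq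
  have h2 : ∫ s, F s * D.W ω s ∂D.π = ∫ s, F (D.flip C s) * D.W ω (D.flip C s) ∂D.π := by
    conv_lhs => rw [← h1]
    rw [integral_map (D.flip_mp C).measurable.aemeasurable]
    rw [h1]
    exact (hF.mul (D.BM_W ω)).1.aestronglyMeasurable
  have h3 : ∫ s, F (D.flip C s) * D.W ω (D.flip C s) ∂D.π = -∫ s, F s * D.W ω s ∂D.π := by
    rw [← integral_neg]
    refine integral_congr_ae (ae_of_all _ fun s => ?_)
    simp only [hodd, D.W_flip h]
    ring
  linarith

open Classical in
/-- the two point function in terms of connections -/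
theorem two_point (o z : V) : D.I (fun s => D.a (s o) * D.a (s z)) =
    ∑ ω : Finset (V × V), if conn ω o z then
      (∫ s, (|D.a (s o)| * |D.a (s z)|) * D.W ω s ∂D.π) else 0 := by
  unfold I
  have h1 : ∀ s, D.a (s o) * D.a (s z) * D.wt s
      = ∑ ω, D.a (s o) * D.a (s z) * D.W ω s := by
    intro s
    rw [← Finset.mul_sum, D.W_sum]
  simp only [h1]
  rw [integral_finsetSum _ fun ω _ => BM.integrable D
    (((D.BM_a o).mul (D.BM_a z)).mul (D.BM_W ω))]
  refine Finset.sum_congr rfl fun ω _ => ?_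
  split_ifs with hc
  · refine integral_congr_ae (ae_of_all _ fun s => ?_)
    by_cases hW : D.W ω s = 0
    · simp only [hW, mul_zero]
    · simp only
      congr 1
      rcases D.conn_sign (fun e he => D.x_pos_of_W hW he) hc with rfl | hpos
      · rw [abs_mul_abs_self]
      · rw [← abs_mul, abs_of_pos hpos]
  · refine D.int_odd (C := clu ω o) (fun e he => clu_edge e he)
      ((D.BM_a o).mul (D.BM_a z)) fun s => ?_
    have ho : o ∈ clu ω o := mem_clu.2 Relation.ReflTransGen.refl
    have hz : z ∉ clu ω o := fun h => hc (mem_clu.1 h)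
    unfold flip
    rw [if_pos ho, if_neg hz, D.odd]
    ring

/-- sign -/
noncomputable def sg (z : ℝ) : ℝ := if 0 < z then 1 else if z < 0 then -1 else 0

theorem sg_abs_le (z : ℝ) : |sg z| ≤ 1 := by
  unfold sg
  split_ifs <;> simp

theorem mul_sg_self (z : ℝ) : z * sg z = |z| := by
  unfold sg
  split_ifs with h h'
  · rw [abs_of_pos h, mul_one]
  · rw [abs_of_neg h']; ring
  · have : z = 0 := le_antisymm (not_lt.1 h) (not_lt.1 h')
    rw [this]; simp

theorem mul_sg_of_pos {y z : ℝ} (h : 0 < y * z) : y * sg z = |y| := by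
  rcases pos_and_pos_or_neg_and_neg_of_mul_pos h with ⟨hb, hc⟩ | ⟨hb, hc⟩
  · unfold sg
    rw [if_pos hc, abs_of_pos hb, mul_one]
  · unfold sg
    rw [if_neg (not_lt.2 hc.le), if_pos hc, abs_of_neg hb]; ring

theorem meas_sg : Measurable sg := by
  unfold sg
  refine Measurable.ite measurableSet_Ioi measurable_const ?_
  exact Measurable.ite measurableSet_Iio measurable_const measurable_const

theorem BM_sg (v : V) : BM fun s : V → Ω => sg (D.a (s v)) :=
  ⟨meas_sg.comp (D.BM_a v).1, 1, fun s => sg_abs_le _⟩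

open Classical in
/-- probability, given the spins, that `w'` and `z` are connected outside `B` -/
noncomputable def Q (B : Finset V) (w' z : V) (s : V → Ω) : ℝ :=
  ∑ ω' ∈ (outer B).powerset,
    if conn ω' w' z then (∏ e ∈ ω', D.p e s) * ∏ e ∈ outer B \ ω', (1 - D.p e s) else 0

theorem Q_nonneg (B : Finset V) (w' z : V) (s : V → Ω) : 0 ≤ D.Q B w' z s := by
  unfold Q
  refine Finset.sum_nonneg fun ω' _ => ?_
  split_ifs
  · exact mul_nonneg (Finset.prod_nonneg fun e _ => D.p_nonneg e s)
      (Finset.prod_nonneg fun e _ => sub_nonneg.2 (D.p_le_one e s))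
  · exact le_rfl

open Classical in
theorem Q_fac {B : Finset V} {e0 : V × V} (he : e0 ∉ outer B) (w' z : V) (s : V → Ω) :
    (∑ ω : Finset (V × V), if e0 ∈ ω ∧ conn (ω ∩ outer B) w' z then D.P ω s else 0)
      = D.p e0 s * D.Q B w' z s := by
  have := bern_factor (fun e => D.p e s) (outer B) {e0}
    (Finset.disjoint_singleton_left.2 he) (fun ω => conn ω w' z)
  simp only [Finset.singleton_subset_iff, Finset.prod_singleton] at this
  exact this

open Classical in
theorem Q_fac0 (B : Finset V) (w' z : V) (s : V → Ω) :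
    (∑ ω : Finset (V × V), if conn (ω ∩ outer B) w' z then D.P ω s else 0)
      = D.Q B w' z s := by
  have := bern_factor (fun e => D.p e s) (outer B) ∅
    (Finset.disjoint_empty_left _) (fun ω => conn ω w' z)
  simp only [Finset.empty_subset, true_and, Finset.prod_empty, one_mul] at this
  exact this

theorem Q_le_one (B : Finset V) (w' z : V) (s : V → Ω) : D.Q B w' z s ≤ 1 := by
  classical
  rw [← D.Q_fac0 B w' z s, ← D.P_sum s]
  refine Finset.sum_le_sum fun ω _ => ?_
  split_ifs
  · exact le_rfl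
  · exact D.P_nonneg ω s

theorem BM_Q (B : Finset V) (w' z : V) : BM (D.Q B w' z) := by
  classical
  unfold Q
  exact BM.sum _ fun ω' _ => BM.ite_const _
    ((BM.prod _ fun e _ => D.BM_p e).mul (BM.prod _ fun e _ => D.BM_onesubp e))

theorem p_congr {e : V × V} {s s' : V → Ω} (h1 : s e.1 = s' e.1) (h2 : s e.2 = s' e.2) :
    D.p e s = D.p e s' := by
  unfold p x
  rw [h1, h2]

theorem Q_congr {B : Finset V} (w' z : V) {s s' : V → Ω} (h : ∀ v ∉ B, s v = s' v) :
    D.Q B w' z s = D.Q B w' z s' := by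
  unfold Q
  refine Finset.sum_congr rfl fun ω' hω' => ?_
  have hp : ∀ e ∈ outer B, D.p e s = D.p e s' := by
    intro e he
    simp only [outer, Finset.mem_filter, Finset.mem_univ, true_and] at he
    exact D.p_congr (h _ he.1) (h _ he.2)
  split_ifs
  · congr 1
    · exact Finset.prod_congr rfl fun e he => hp e (Finset.mem_powerset.1 hω' he)
    · exact Finset.prod_congr rfl fun e he => by rw [hp e (Finset.mem_sdiff.1 he).1]
  · rfl

theorem p_le {w w' : V} {e : V × V} (he : e = (w, w') ∨ e = (w', w)) (s : V → Ω) :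
    D.p e s ≤ 2 * D.k e * |D.a (s w')| := by
  unfold p
  split_ifs with h
  · have h1 : 1 - Real.exp (-(2 * D.k e * D.x e s)) ≤ 2 * D.k e * D.x e s := by
      have := Real.add_one_le_exp (-(2 * D.k e * D.x e s))
      linarith
    refine h1.trans ?_
    have hk := D.k0 e
    refine mul_le_mul_of_nonneg_left ?_ (by positivity)
    have h2 : D.x e s ≤ |D.x e s| := le_abs_self _
    refine h2.trans ?_
    unfold x
    rw [abs_mul]
    rcases he with rfl | rfl
    · simp only
      have := D.a1 (s w)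
      have := abs_nonneg (D.a (s w'))
      nlinarith [abs_nonneg (D.a (s w))]
    · simp only
      have := D.a1 (s w)
      have := abs_nonneg (D.a (s w'))
      nlinarith [abs_nonneg (D.a (s w))]
  · have := D.k0 e
    positivity

theorem I_mono {F G : (V → Ω) → ℝ} (hF : BM F) (hG : BM G) (h : ∀ s, F s ≤ G s) :
    D.I F ≤ D.I G := by
  unfold I
  refine integral_mono (BM.integrable D (hF.mul D.BM_wt)) (BM.integrable D (hG.mul D.BM_wt))
    fun s => ?_
  exact mul_le_mul_of_nonneg_right (h s) (D.wt_nonneg s)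

open Classical in
/-- the contribution of one exit edge -/
theorem exit_term (B : Finset V) {o z w w' : V} {e0 : V × V}
    (he0 : e0 = (w, w') ∨ e0 = (w', w)) (hw : w ∈ B) (hw' : w' ∉ B) (hz : z ∉ B)
    (M : ℝ) (hM0 : 0 ≤ M) (Dw : Finset V) (hDB : Dw ⊆ B) (hDw : w ∉ Dw)
    (hM : ∀ φ : (V → Ω) → ℝ, Measurable φ → (∀ s, |φ s| ≤ 1) →
      (∀ s s', (∀ v ∉ Dw, s v = s' v) → φ s = φ s') →
      |D.I (fun s => D.a (s o) * φ s)| ≤ M * D.I (fun s => |φ s|)) :
    (∑ ω : Finset (V × V), if e0 ∈ ω ∧ conn (ω ∩ outer B) w' z ∧ conn ω o w then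
      (∫ s, (|D.a (s o)| * |D.a (s z)|) * D.W ω s ∂D.π) else 0)
      ≤ 2 * D.k e0 * M * D.I (fun s => D.a (s w') * D.a (s z)) := by
  have he0' : e0 ∉ outer B := by
    intro h
    simp only [outer, Finset.mem_filter, Finset.mem_univ, true_and] at h
    rcases he0 with rfl | rfl
    · exact h.1 hw
    · exact h.2 hw
  -- step 3: replace by the sign of the spin at `w`
  have h3 : (∑ ω : Finset (V × V), if e0 ∈ ω ∧ conn (ω ∩ outer B) w' z ∧ conn ω o w then
      (∫ s, (|D.a (s o)| * |D.a (s z)|) * D.W ω s ∂D.π) else 0)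
      = ∑ ω : Finset (V × V), if e0 ∈ ω ∧ conn (ω ∩ outer B) w' z then
      (∫ s, (D.a (s o) * (sg (D.a (s w)) * |D.a (s z)|)) * D.W ω s ∂D.π) else 0 := by
    refine Finset.sum_congr rfl fun ω _ => ?_
    by_cases hc : e0 ∈ ω ∧ conn (ω ∩ outer B) w' z
    · rw [if_pos hc]
      by_cases how : conn ω o w
      · rw [if_pos ⟨hc.1, hc.2, how⟩]
        refine integral_congr_ae (ae_of_all _ fun s => ?_)
        by_cases hW : D.W ω s = 0
        · simp only [hW, mul_zero]
        · simp only
          congr 1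
          rw [← mul_assoc]
          congr 1
          rcases D.conn_sign (fun e he => D.x_pos_of_W hW he) how with rfl | hpos
          · rw [mul_sg_self]
          · rw [mul_sg_of_pos hpos]
      · rw [if_neg (fun h => how h.2.2)]
        symm
        refine D.int_odd (C := clu ω o) (fun e he => clu_edge e he)
          ((D.BM_a o).mul ((D.BM_sg w).mul (D.BM_absa z))) fun s => ?_
        have ho : o ∈ clu ω o := mem_clu.2 Relation.ReflTransGen.refl
        have hz' : w ∉ clu ω o := fun h => how (mem_clu.1 h)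
        rw [D.abs_flip]
        unfold flip
        rw [if_pos ho, if_neg hz', D.odd]
        ring
    · rw [if_neg hc, if_neg (fun h => hc ⟨h.1, h.2.1⟩)]
  rw [h3]
  set φ : (V → Ω) → ℝ := fun s => sg (D.a (s w)) * |D.a (s z)| * (D.p e0 s * D.Q B w' z s)
    with hφ
  have hφBM : BM φ := ((D.BM_sg w).mul (D.BM_absa z)).mul ((D.BM_p e0).mul (D.BM_Q B w' z))
  -- step 4
  have h4 : (∑ ω : Finset (V × V), if e0 ∈ ω ∧ conn (ω ∩ outer B) w' z then
      (∫ s, (D.a (s o) * (sg (D.a (s w)) * |D.a (s z)|)) * D.W ω s ∂D.π) else 0)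
      = D.I (fun s => D.a (s o) * φ s) := by
    have h5 : ∀ s, D.a (s o) * φ s * D.wt s = ∑ ω : Finset (V × V),
        if e0 ∈ ω ∧ conn (ω ∩ outer B) w' z then
        (D.a (s o) * (sg (D.a (s w)) * |D.a (s z)|)) * D.W ω s else 0 := by
      intro s
      simp only [hφ]
      rw [← D.Q_fac he0' w' z s, Finset.mul_sum, Finset.mul_sum, Finset.sum_mul]
      refine Finset.sum_congr rfl fun ω _ => ?_
      split_ifs
      · rw [D.W_eq]; ring
      · ring
    unfold I
    simp only [h5]
    rw [integral_finsetSum _ fun ω _ => BM.integrable D (BM.ite_const _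
      (((D.BM_a o).mul ((D.BM_sg w).mul (D.BM_absa z))).mul (D.BM_W ω)))]
    refine Finset.sum_congr rfl fun ω _ => ?_
    split_ifs
    · rfl
    · rw [integral_zero]
  rw [h4]
  -- step 5
  have hφ1 : ∀ s, |φ s| ≤ 1 := by
    intro s
    simp only [hφ, abs_mul, abs_abs]
    have h1 := sg_abs_le (D.a (s w))
    have h2 := D.a1 (s z)
    have h3 : |D.p e0 s| ≤ 1 := by
      rw [abs_of_nonneg (D.p_nonneg e0 s)]; exact D.p_le_one e0 s
    have h4 : |D.Q B w' z s| ≤ 1 := by
      rw [abs_of_nonneg (D.Q_nonneg B w' z s)]; exact D.Q_le_one B w' z s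
    exact mul_le_one₀ (mul_le_one₀ h1 (abs_nonneg _) h2)
      (mul_nonneg (abs_nonneg _) (abs_nonneg _)) (mul_le_one₀ h3 (abs_nonneg _) h4)
  have hφc : ∀ s s', (∀ v ∉ Dw, s v = s' v) → φ s = φ s' := by
    intro s s' hs
    have hB : ∀ v ∉ B, s v = s' v := fun v hv => hs v fun h => hv (hDB h)
    have hww : s w = s' w := hs w hDw
    have hww' : s w' = s' w' := hB w' hw'
    simp only [hφ]
    rw [hww, hB z hz, D.Q_congr w' z hB]
    congr 2
    rcases he0 with rfl | rfl
    · exact D.p_congr hww hww'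
    · exact D.p_congr hww' hww
  have h5 := hM φ hφBM.1 hφ1 hφc
  refine (le_abs_self _).trans (h5.trans ?_)
  -- step 6
  have habsBM : BM fun s => |φ s| := ⟨hφBM.1.abs, 1, fun s => by rw [abs_abs]; exact hφ1 s⟩
  have h6 : D.I (fun s => |φ s|) ≤
      D.I (fun s => 2 * D.k e0 * ((|D.a (s w')| * |D.a (s z)|) * D.Q B w' z s)) := by
    have hk := D.k0 e0
    refine D.I_mono habsBM ?_ fun s => ?_
    · have hb : BM fun s => (|D.a (s w')| * |D.a (s z)|) * D.Q B w' z s :=
        ((D.BM_absa w').mul (D.BM_absa z)).mul (D.BM_Q B w' z)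
      obtain ⟨hb1, C, hC⟩ := hb
      refine ⟨hb1.const_mul _, |2 * D.k e0| * C, fun s => ?_⟩
      rw [abs_mul]
      exact mul_le_mul_of_nonneg_left (hC s) (abs_nonneg _)
    · simp only [hφ, abs_mul, abs_abs]
      have h1 := sg_abs_le (D.a (s w))
      have h2 := D.p_le he0 s
      have h3 := D.p_nonneg e0 s
      have h4 := D.Q_nonneg B w' z s
      rw [abs_of_nonneg h3, abs_of_nonneg h4]
      have hz0 := abs_nonneg (D.a (s z))
      have hw0 := abs_nonneg (D.a (s w'))
      calc |sg (D.a (s w))| * |D.a (s z)| * (D.p e0 s * D.Q B w' z s)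
          ≤ 1 * |D.a (s z)| * ((2 * D.k e0 * |D.a (s w')|) * D.Q B w' z s) := by
            refine mul_le_mul (mul_le_mul_of_nonneg_right h1 hz0)
              (mul_le_mul_of_nonneg_right h2 h4) (mul_nonneg h3 h4) (by positivity)
        _ = 2 * D.k e0 * (|D.a (s w')| * |D.a (s z)| * D.Q B w' z s) := by ring
  -- step 7
  have h7 : D.I (fun s => 2 * D.k e0 * ((|D.a (s w')| * |D.a (s z)|) * D.Q B w' z s))
      = 2 * D.k e0 * ∑ ω : Finset (V × V), if conn (ω ∩ outer B) w' z then
        (∫ s, (|D.a (s w')| * |D.a (s z)|) * D.W ω s ∂D.π) else 0 := by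
    have h8 : ∀ s, 2 * D.k e0 * ((|D.a (s w')| * |D.a (s z)|) * D.Q B w' z s) * D.wt s
        = 2 * D.k e0 * ∑ ω : Finset (V × V), if conn (ω ∩ outer B) w' z then
          (|D.a (s w')| * |D.a (s z)|) * D.W ω s else 0 := by
      intro s
      rw [mul_assoc]
      congr 1
      rw [← D.Q_fac0 B w' z s, Finset.mul_sum, Finset.sum_mul]
      refine Finset.sum_congr rfl fun ω _ => ?_
      split_ifs
      · rw [D.W_eq]; ring
      · ring
    unfold I
    simp only [h8]
    rw [integral_const_mul]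
    congr 1
    rw [integral_finsetSum _ fun ω _ => BM.integrable D (BM.ite_const _
      (((D.BM_absa w').mul (D.BM_absa z)).mul (D.BM_W ω)))]
    refine Finset.sum_congr rfl fun ω _ => ?_
    split_ifs
    · rfl
    · rw [integral_zero]
  have h9 : (∑ ω : Finset (V × V), if conn (ω ∩ outer B) w' z then
        (∫ s, (|D.a (s w')| * |D.a (s z)|) * D.W ω s ∂D.π) else 0)
      ≤ D.I (fun s => D.a (s w') * D.a (s z)) := by
    rw [D.two_point w' z]
    refine Finset.sum_le_sum fun ω _ => ?_
    have hJ : 0 ≤ ∫ s, (|D.a (s w')| * |D.a (s z)|) * D.W ω s ∂D.π :=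
      integral_nonneg fun s => mul_nonneg (mul_nonneg (abs_nonneg _) (abs_nonneg _))
        (D.W_nonneg ω s)
    by_cases hc : conn (ω ∩ outer B) w' z
    · rw [if_pos hc, if_pos (conn_mono Finset.inter_subset_left hc)]
    · rw [if_neg hc]
      split_ifs
      · exact hJ
      · exact le_rfl
  have hk := D.k0 e0
  calc M * D.I (fun s => |φ s|)
      ≤ M * (2 * D.k e0 * D.I (fun s => D.a (s w') * D.a (s z))) := by
        refine mul_le_mul_of_nonneg_left (h6.trans ?_) hM0
        rw [h7]
        exact mul_le_mul_of_nonneg_left h9 (by positivity)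
    _ = 2 * D.k e0 * M * D.I (fun s => D.a (s w') * D.a (s z)) := by ring

/-- **The exit inequality.** -/
theorem exit (B : Finset V) {o z : V} (ho : o ∈ B) (hz : z ∉ B)
    (M : V → ℝ) (hM0 : ∀ w ∈ B, 0 ≤ M w) (Dw : V → Finset V) (hDB : ∀ w ∈ B, Dw w ⊆ B)
    (hDw : ∀ w ∈ B, w ∉ Dw w)
    (hM : ∀ w ∈ B, ∀ φ : (V → Ω) → ℝ, Measurable φ → (∀ s, |φ s| ≤ 1) →
      (∀ s s', (∀ v ∉ Dw w, s v = s' v) → φ s = φ s') →
      |D.I (fun s => D.a (s o) * φ s)| ≤ M w * D.I (fun s => |φ s|)) :
    D.I (fun s => D.a (s o) * D.a (s z)) ≤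
      ∑ w ∈ B, ∑ w' ∈ Bᶜ, 2 * (D.k (w, w') + D.k (w', w)) * M w *
        D.I (fun s => D.a (s w') * D.a (s z)) := by
  classical
  rw [D.two_point o z]
  set J : Finset (V × V) → ℝ := fun ω => ∫ s, (|D.a (s o)| * |D.a (s z)|) * D.W ω s ∂D.π
    with hJ
  have hJ0 : ∀ ω, 0 ≤ J ω := fun ω => integral_nonneg fun s =>
    mul_nonneg (mul_nonneg (abs_nonneg _) (abs_nonneg _)) (D.W_nonneg ω s)
  set t : V → V → V × V → Finset (V × V) → ℝ := fun w w' e0 ω =>
    if e0 ∈ ω ∧ conn (ω ∩ outer B) w' z ∧ conn ω o w then J ω else 0 with ht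
  have ht0 : ∀ w w' e0 ω, 0 ≤ t w w' e0 ω := by
    intro w w' e0 ω
    simp only [ht]
    split_ifs
    · exact hJ0 ω
    · exact le_rfl
  have h1 : (∑ ω : Finset (V × V), if conn ω o z then J ω else 0) ≤
      ∑ ω : Finset (V × V), ∑ w ∈ B, ∑ w' ∈ Bᶜ, (t w w' (w, w') ω + t w w' (w', w) ω) := by
    refine Finset.sum_le_sum fun ω _ => ?_
    split_ifs with hc
    · obtain ⟨w, hw, w', hw', hadj, how, hwz⟩ := last_exit B ω ho hz hc
      have hs1 : J ω ≤ t w w' (w, w') ω + t w w' (w', w) ω := by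
        rcases hadj with h | h
        · have : t w w' (w, w') ω = J ω := by
            simp only [ht]
            rw [if_pos ⟨h, hwz, how⟩]
          rw [this]
          linarith [ht0 w w' (w', w) ω]
        · have : t w w' (w', w) ω = J ω := by
            simp only [ht]
            rw [if_pos ⟨h, hwz, how⟩]
          rw [this]
          linarith [ht0 w w' (w, w') ω]
      refine hs1.trans ?_
      have hs2 : t w w' (w, w') ω + t w w' (w', w) ω ≤
          ∑ w' ∈ Bᶜ, (t w w' (w, w') ω + t w w' (w', w) ω) :=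
        Finset.single_le_sum (f := fun w' => t w w' (w, w') ω + t w w' (w', w) ω)
          (fun w' _ => add_nonneg (ht0 _ _ _ _) (ht0 _ _ _ _)) (Finset.mem_compl.2 hw')
      refine hs2.trans ?_
      exact Finset.single_le_sum
        (f := fun w => ∑ w' ∈ Bᶜ, (t w w' (w, w') ω + t w w' (w', w) ω))
        (fun w _ => Finset.sum_nonneg fun w' _ => add_nonneg (ht0 _ _ _ _) (ht0 _ _ _ _)) hw
    · exact Finset.sum_nonneg fun w _ => Finset.sum_nonneg fun w' _ =>
        add_nonneg (ht0 _ _ _ _) (ht0 _ _ _ _)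
  refine h1.trans ?_
  rw [Finset.sum_comm]
  refine Finset.sum_le_sum fun w hw => ?_
  rw [Finset.sum_comm]
  refine Finset.sum_le_sum fun w' hw' => ?_
  rw [Finset.mem_compl] at hw'
  rw [Finset.sum_add_distrib]
  have ha := D.exit_term B (o := o) (z := z) (e0 := (w, w')) (Or.inl rfl) hw hw' hz
    (M w) (hM0 w hw) (Dw w) (hDB w hw) (hDw w hw) (hM w hw)
  have hb := D.exit_term B (o := o) (z := z) (e0 := (w', w)) (Or.inr rfl) hw hw' hz
    (M w) (hM0 w hw) (Dw w) (hDB w hw) (hDw w hw) (hM w hw)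
  have hab := add_le_add ha hb
  refine hab.trans (le_of_eq ?_)
  ring

end Sys

end Pool.Agent.H983R2.FK
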